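import Pool.Agent.MNE.StmtsD

/-! Row EXR of squad MNE (MP_d2d93c_nt): existence of the relation `R`. -/

set_option autoImplicit false

namespace Pool.Agent.MNE.H19

open Finset Filter Topology Polynomial

/-- a nonzero vector in the kernel of the reduction map -/
theorem exr_ker (P Q : ℕ) (hQ : 0 < Q)
    (a : ℤ × ℕ → (ℤ × ℕ) →₀ ℚ) :
    ∃ x : Fin (Q * P + 1) × Fin (Q + 1) → ℚ, x ≠ 0 ∧
      ∀ j : Fin Q × Fin (Q * P + P + 1),
        ∑ i : Fin (Q * P + 1) × Fin (Q + 1),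
          a (((i.1 : ℕ) : ℤ), (i.2 : ℕ))
            ((((j.2 : ℕ) : ℤ) - ((P * (j.1 : ℕ) / Q : ℕ) : ℤ)), (j.1 : ℕ)) * x i = 0 := by
  classical
  let f : (Fin (Q * P + 1) × Fin (Q + 1) → ℚ) →ₗ[ℚ] (Fin Q × Fin (Q * P + P + 1) → ℚ) :=
    LinearMap.pi (fun j => ∑ i : Fin (Q * P + 1) × Fin (Q + 1),
      (a (((i.1 : ℕ) : ℤ), (i.2 : ℕ))
            ((((j.2 : ℕ) : ℤ) - ((P * (j.1 : ℕ) / Q : ℕ) : ℤ)), (j.1 : ℕ))) •
        (LinearMap.proj i : (Fin (Q * P + 1) × Fin (Q + 1) → ℚ) →ₗ[ℚ] ℚ))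
  have hlt : Module.finrank ℚ (Fin Q × Fin (Q * P + P + 1) → ℚ) <
      Module.finrank ℚ (Fin (Q * P + 1) × Fin (Q + 1) → ℚ) := by
    rw [Module.finrank_fintype_fun_eq_card, Module.finrank_fintype_fun_eq_card]
    simp only [Fintype.card_prod, Fintype.card_fin]
    have : (Q * P + 1) * (Q + 1) = Q * (Q * P + P + 1) + 1 := by ring
    omega
  have hk := LinearMap.ker_ne_bot_of_finrank_lt (f := f) hlt
  obtain ⟨x, hx, hx0⟩ := (Submodule.ne_bot_iff _).1 hk
  refine ⟨x, hx0, fun j => ?_⟩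
  have := congrFun (LinearMap.mem_ker.1 hx) j
  simpa [f, LinearMap.pi_apply, LinearMap.sum_apply] using this

theorem exr (hRDC : RdcStmt) : ExrStmt := by
  classical
  intro h M n P Q σ c κ l hB hL
  choose a ha1 ha2 using hRDC h M n P Q σ c κ l hB hL
  have hQ : 0 < Q := lt_trans hB.hP hB.hPQ
  obtain ⟨x, hx0, hx⟩ := exr_ker P Q hQ a
  -- the reduction of the combination is zero
  have hred : ∀ e' : ℤ × ℕ,
      ∑ i : Fin (Q * P + 1) × Fin (Q + 1), a (((i.1 : ℕ) : ℤ), (i.2 : ℕ)) e' * x i = 0 := by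
    intro e'
    by_cases hex : ∃ i : Fin (Q * P + 1) × Fin (Q + 1),
        a (((i.1 : ℕ) : ℤ), (i.2 : ℕ)) e' ≠ 0
    · obtain ⟨i, hi⟩ := hex
      have h1 := ha1 _ e' (Finsupp.mem_support_iff.2 hi)
      obtain ⟨h2, h3, h4⟩ := h1
      obtain ⟨e1, e2⟩ := e'
      simp only at h2 h3 h4
      have hi1 : (i.1 : ℕ) ≤ Q * P := Nat.lt_succ_iff.1 i.1.2
      have hi2 : (i.2 : ℕ) ≤ Q := Nat.lt_succ_iff.1 i.2.2
      have h5 : (Q : ℤ) * e1 + P * e2 ≤ Q * (Q * P) + P * Q := by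
        refine h4.trans ?_
        have a1 : ((i.1 : ℕ) : ℤ) ≤ Q * P := by exact_mod_cast hi1
        have a2 : ((i.2 : ℕ) : ℤ) ≤ Q := by exact_mod_cast hi2
        have b1 := mul_le_mul_of_nonneg_left a1 (Int.natCast_nonneg Q)
        have b2 := mul_le_mul_of_nonneg_left a2 (Int.natCast_nonneg P)
        linarith
      have hQz : (0 : ℤ) < Q := by exact_mod_cast hQ
      have hdm := Nat.div_add_mod (P * e2) Q
      have hml := Nat.mod_lt (P * e2) hQ
      set t := P * e2 / Q with ht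
      set r := P * e2 % Q with hr
      have hdz : (Q : ℤ) * t + r = P * e2 := by exact_mod_cast hdm
      have hrz : (r : ℤ) < Q := by exact_mod_cast hml
      have hr0 : (0 : ℤ) ≤ r := Int.natCast_nonneg r
      have k0 : 0 ≤ e1 + t := by
        by_contra hcon
        push Not at hcon
        have : e1 + t ≤ -1 := by omega
        have := mul_le_mul_of_nonneg_left this hQz.le
        nlinarith
      have k1 : e1 + t ≤ Q * P + P := by
        by_contra hcon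
        push Not at hcon
        have : (Q : ℤ) * P + P + 1 ≤ e1 + t := by omega
        have := mul_le_mul_of_nonneg_left this hQz.le
        nlinarith
      obtain ⟨k, hk⟩ := Int.eq_ofNat_of_zero_le k0
      have hkle : k < Q * P + P + 1 := by
        have : (k : ℤ) ≤ Q * P + P := by rw [← hk]; exact k1
        have : k ≤ Q * P + P := by exact_mod_cast this
        omega
      have := hx (⟨e2, h2⟩, ⟨k, hkle⟩)
      simp only at this
      have he : ((k : ℤ) - ((P * e2 / Q : ℕ) : ℤ)) = e1 := by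
        rw [← ht, ← hk]; ring
      rw [he] at this
      exact this
    · push Not at hex
      exact Finset.sum_eq_zero fun i _ => by rw [hex i, zero_mul]
  -- the polynomial
  set R : (ℚ[X])[X] := ∑ i : Fin (Q * P + 1) × Fin (Q + 1),
    monomial (i.2 : ℕ) (monomial (i.1 : ℕ) (x i)) with hR
  have hev : ∀ u t : ℚ, R.evalEval u t =
      ∑ i : Fin (Q * P + 1) × Fin (Q + 1), x i * (u ^ (i.1 : ℕ) * t ^ (i.2 : ℕ)) := by
    intro u t
    rw [hR, evalEval_finsetSum]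
    refine Finset.sum_congr rfl fun i _ => ?_
    simp only [evalEval, eval_monomial, eval_mul, eval_pow, eval_C]
    ring
  refine ⟨R, ?_, ?_, ?_⟩
  · -- nonzero
    intro hR0
    apply hx0
    funext i
    have h1 : (R.coeff (i.2 : ℕ)).coeff (i.1 : ℕ) = x i := by
      rw [hR, finset_sum_coeff, finset_sum_coeff, Finset.sum_eq_single i]
      · rw [coeff_monomial, if_pos rfl, coeff_monomial, if_pos rfl]
      · intro b _ hb
        rw [coeff_monomial]
        by_cases h2 : (b.2 : ℕ) = (i.2 : ℕ)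
        · rw [if_pos h2, coeff_monomial]
          by_cases h3 : (b.1 : ℕ) = (i.1 : ℕ)
          · exact absurd (Prod.ext (Fin.ext h3) (Fin.ext h2)) hb
          · rw [if_neg h3]
        · rw [if_neg h2, coeff_zero]
      · intro hi
        exact absurd (Finset.mem_univ i) hi
    rw [← h1, hR0]
    simp
  · -- degree
    rw [hR]
    refine natDegree_sum_le_of_forall_le _ _ fun i _ => ?_
    refine (natDegree_monomial_le _).trans ?_
    exact Nat.lt_succ_iff.1 i.2.2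
  · -- vanishing
    have hlim : Tendsto (fun p : ℕ × ℕ => ∑ i : Fin (Q * P + 1) × Fin (Q + 1),
        (x i : ℝ) * ((p.1 : ℝ) ^ (i.1 : ℕ) * (p.2 : ℝ) ^ (i.2 : ℕ))) l (𝓝 0) := by
      have h1 : Tendsto (fun p : ℕ × ℕ => ∑ i : Fin (Q * P + 1) × Fin (Q + 1),
          (x i : ℝ) * ((p.1 : ℝ) ^ (((i.1 : ℕ) : ℤ), (i.2 : ℕ)).1 *
            (p.2 : ℝ) ^ (((i.1 : ℕ) : ℤ), (i.2 : ℕ)).2 -
          (a (((i.1 : ℕ) : ℤ), (i.2 : ℕ))).sum fun e' t =>
            (t : ℝ) * ((p.1 : ℝ) ^ e'.1 * (p.2 : ℝ) ^ e'.2))) l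
          (𝓝 (∑ i : Fin (Q * P + 1) × Fin (Q + 1), (x i : ℝ) * 0)) := by
        refine tendsto_finset_sum _ fun i _ => ?_
        exact (ha2 (((i.1 : ℕ) : ℤ), (i.2 : ℕ))).const_mul _
      have h2 : (∑ i : Fin (Q * P + 1) × Fin (Q + 1), (x i : ℝ) * 0) = 0 := by simp
      rw [h2] at h1
      refine h1.congr fun p => ?_
      have h3 : ∑ i : Fin (Q * P + 1) × Fin (Q + 1), (x i : ℝ) *
          ((a (((i.1 : ℕ) : ℤ), (i.2 : ℕ))).sum fun e' t =>
            (t : ℝ) * ((p.1 : ℝ) ^ e'.1 * (p.2 : ℝ) ^ e'.2)) = 0 := by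
        set S : Finset (ℤ × ℕ) := Finset.univ.biUnion
          (fun i : Fin (Q * P + 1) × Fin (Q + 1) =>
            (a (((i.1 : ℕ) : ℤ), (i.2 : ℕ))).support) with hS
        have h4 : ∀ i : Fin (Q * P + 1) × Fin (Q + 1),
            ((a (((i.1 : ℕ) : ℤ), (i.2 : ℕ))).sum fun e' t =>
              (t : ℝ) * ((p.1 : ℝ) ^ e'.1 * (p.2 : ℝ) ^ e'.2)) =
            ∑ e' ∈ S, ((a (((i.1 : ℕ) : ℤ), (i.2 : ℕ)) e' : ℚ) : ℝ) *
              ((p.1 : ℝ) ^ e'.1 * (p.2 : ℝ) ^ e'.2) := by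
          intro i
          refine Finsupp.sum_of_support_subset _ ?_ _ ?_
          · intro e he
            rw [hS, Finset.mem_biUnion]
            exact ⟨i, Finset.mem_univ i, he⟩
          · intro e _
            simp
        simp_rw [h4, Finset.mul_sum]
        rw [Finset.sum_comm]
        refine Finset.sum_eq_zero fun e' _ => ?_
        have h5 : ∀ i : Fin (Q * P + 1) × Fin (Q + 1),
            (x i : ℝ) * (((a (((i.1 : ℕ) : ℤ), (i.2 : ℕ)) e' : ℚ) : ℝ) *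
              ((p.1 : ℝ) ^ e'.1 * (p.2 : ℝ) ^ e'.2)) =
            ((a (((i.1 : ℕ) : ℤ), (i.2 : ℕ)) e' * x i : ℚ) : ℝ) *
              ((p.1 : ℝ) ^ e'.1 * (p.2 : ℝ) ^ e'.2) := by
          intro i
          push_cast
          ring
        simp_rw [h5]
        rw [← Finset.sum_mul, ← Rat.cast_sum, hred e']
        simp
      have h6 : ∀ i : Fin (Q * P + 1) × Fin (Q + 1),
          (x i : ℝ) * ((p.1 : ℝ) ^ (((i.1 : ℕ) : ℤ), (i.2 : ℕ)).1 *
            (p.2 : ℝ) ^ (((i.1 : ℕ) : ℤ), (i.2 : ℕ)).2 -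
          (a (((i.1 : ℕ) : ℤ), (i.2 : ℕ))).sum fun e' t =>
            (t : ℝ) * ((p.1 : ℝ) ^ e'.1 * (p.2 : ℝ) ^ e'.2)) =
          (x i : ℝ) * ((p.1 : ℝ) ^ (i.1 : ℕ) * (p.2 : ℝ) ^ (i.2 : ℕ)) -
          (x i : ℝ) * ((a (((i.1 : ℕ) : ℤ), (i.2 : ℕ))).sum fun e' t =>
            (t : ℝ) * ((p.1 : ℝ) ^ e'.1 * (p.2 : ℝ) ^ e'.2)) := by
        intro i
        simp only [zpow_natCast]
        ring
      simp_rw [h6]
      rw [Finset.sum_sub_distrib, h3, sub_zero]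
    -- common denominator
    set d : ℕ := ∏ i : Fin (Q * P + 1) × Fin (Q + 1), (x i).den with hd
    have hd0 : 0 < d := Finset.prod_pos fun i _ => (x i).den_pos
    have hdx : ∀ i, ∃ z : ℤ, (z : ℚ) = d * x i := by
      intro i
      obtain ⟨m, hm⟩ : (x i).den ∣ d := Finset.dvd_prod_of_mem _ (Finset.mem_univ i)
      refine ⟨m * (x i).num, ?_⟩
      rw [hm]
      push_cast
      have := Rat.mul_den_eq_num (x i)
      rw [← this]
      ring
    choose z hz using hdx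
    have hsmall : ∀ᶠ p : ℕ × ℕ in l, |∑ i : Fin (Q * P + 1) × Fin (Q + 1),
        (x i : ℝ) * ((p.1 : ℝ) ^ (i.1 : ℕ) * (p.2 : ℝ) ^ (i.2 : ℕ))| < 1 / d := by
      have hd0' : (0 : ℝ) < 1 / d := by positivity
      have := hlim (Metric.ball_mem_nhds (0 : ℝ) hd0')
      filter_upwards [this] with p hp
      simpa [Real.dist_eq] using hp
    filter_upwards [hsmall] with p hp
    rw [hev]
    have hint : ((∑ i : Fin (Q * P + 1) × Fin (Q + 1),
        z i * ((p.1 : ℤ) ^ (i.1 : ℕ) * (p.2 : ℤ) ^ (i.2 : ℕ)) : ℤ) : ℚ) =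
        d * ∑ i : Fin (Q * P + 1) × Fin (Q + 1),
          x i * ((p.1 : ℚ) ^ (i.1 : ℕ) * (p.2 : ℚ) ^ (i.2 : ℕ)) := by
      push_cast
      rw [Finset.mul_sum]
      refine Finset.sum_congr rfl fun i _ => ?_
      rw [hz i]
      ring
    set Z : ℤ := ∑ i : Fin (Q * P + 1) × Fin (Q + 1),
        z i * ((p.1 : ℤ) ^ (i.1 : ℕ) * (p.2 : ℤ) ^ (i.2 : ℕ)) with hZ
    set Y : ℚ := ∑ i : Fin (Q * P + 1) × Fin (Q + 1),
          x i * ((p.1 : ℚ) ^ (i.1 : ℕ) * (p.2 : ℚ) ^ (i.2 : ℕ)) with hY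
    have hYr : (Y : ℝ) = ∑ i : Fin (Q * P + 1) × Fin (Q + 1),
        (x i : ℝ) * ((p.1 : ℝ) ^ (i.1 : ℕ) * (p.2 : ℝ) ^ (i.2 : ℕ)) := by
      rw [hY]
      push_cast
      rfl
    rw [← hYr] at hp
    have hdR : (0 : ℝ) < d := by exact_mod_cast hd0
    have hZr : (Z : ℝ) = d * (Y : ℝ) := by exact_mod_cast hint
    have hZlt : |(Z : ℝ)| < 1 := by
      rw [hZr, abs_mul, abs_of_pos hdR]
      have := mul_lt_mul_of_pos_left hp hdR
      rwa [mul_one_div, div_self hdR.ne'] at this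
    have hZ0 : Z = 0 := by
      have : |Z| < 1 := by exact_mod_cast hZlt
      exact Int.abs_lt_one_iff.1 this
    rw [hZ0] at hint
    have hdQ : (d : ℚ) ≠ 0 := by exact_mod_cast hd0.ne'
    have := hint.symm
    rw [Int.cast_zero, mul_eq_zero] at this
    exact this.resolve_left hdQ

end Pool.Agent.MNE.H19
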